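import Mathlib
import Pool.Agent.H592W.Thin2

set_option autoImplicit false
open MeasureTheory ProbabilityTheory
open scoped ENNReal NNReal BigOperators

namespace Pool.Agent.Results.MP_e1341d_pr.LogLawDisproof

/-- The nearest-neighbour graph of the square lattice. -/
def squareLattice : SimpleGraph (ℤ × ℤ) where
  Adj a b := |a.1 - b.1| + |a.2 - b.2| = 1
  symm := ⟨fun a b h => by
    rw [abs_sub_comm b.1 a.1, abs_sub_comm b.2 a.2]
    exact h⟩
  loopless := ⟨fun a h => by simp at h⟩

/-- A set of vertices percolates if the subgraph of the square lattice it induces has an infinite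
connected component. -/
def Percolates (S : Set (ℤ × ℤ)) : Prop :=
  ∃ C : (squareLattice.induce S).ConnectedComponent, C.supp.Infinite

/-- The sample space. For `ω = (N, L, e)`, the number of worms at `x` is `N x`, the number of steps
of the `i`-th worm at `x` is `L (x, i)`, and the `k`-th step of that worm is in direction
`e (x, i, k)`. -/
abbrev Sample : Type :=
  (ℤ × ℤ → ℕ) × ((ℤ × ℤ) × ℕ → ℕ) × ((ℤ × ℤ) × ℕ × ℕ → Fin 4)

/-- The law of the model: independent Poisson numbers of mean `v`, independent numbers of steps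
with law `m`, independent uniform directions. -/
noncomputable def wormLaw (v : ℝ≥0) (m : PMF ℕ) : Measure Sample :=
  (Measure.infinitePi (fun _ : ℤ × ℤ => (poissonPMF v).toMeasure)).prod
    ((Measure.infinitePi (fun _ : (ℤ × ℤ) × ℕ => m.toMeasure)).prod
      (Measure.infinitePi
        (fun _ : (ℤ × ℤ) × ℕ × ℕ => (PMF.uniformOfFintype (Fin 4)).toMeasure)))

/-- The four unit steps. -/
def unitStep : Fin 4 → ℤ × ℤ := ![(1, 0), (-1, 0), (0, 1), (0, -1)]

/-- The union of the traces `{X(0), ..., X(L)}` of all worms. -/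
def wormSet (ω : Sample) : Set (ℤ × ℤ) :=
  {z | ∃ x : ℤ × ℤ, ∃ i : ℕ, i < ω.1 x ∧ ∃ j : ℕ, j ≤ ω.2.1 (x, i) ∧
    z = x + ∑ k ∈ Finset.range j, unitStep (ω.2.2 (x, i, k))}

/-- The critical intensity `inf {v > 0 : P (the worm set percolates) > 0}`, in `[0, ∞]`. -/
noncomputable def vc (m : PMF ℕ) : ℝ≥0∞ :=
  ⨅ v : {v : ℝ≥0 // 0 < v ∧ 0 < wormLaw v m {ω | Percolates (wormSet ω)}}, ((v : ℝ≥0) : ℝ≥0∞)

theorem mem_wormSet (ω : Sample) (a : ℤ × ℤ) :
    a ∈ wormSet ω ↔ H592.phi2 a ∈ H592.occ (H592.Qs H592.xi2 ω) := by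
  constructor
  · rintro ⟨x, i, hi, j, hj, rfl⟩
    refine ⟨(H592.phi2 x, H592.mark H592.gg2 (x, i) ω.2), ?_, ?_⟩
    · show H592.xi2 _ ω = true
      rw [H592.xi2_true_iff]
      exact ⟨i, hi, rfl⟩
    · show H592.phi2 (x + _) - H592.phi2 x ∈ H592.mark H592.gg2 (x, i) ω.2
      rw [H592.phi2_add, add_sub_cancel_left, H592.phi2_sum]
      unfold H592.mark H592.gg2
      rw [Finset.mem_image]
      refine ⟨j, Finset.mem_range.mpr (Nat.lt_succ_of_le hj), ?_⟩
      exact Finset.sum_congr rfl fun k _ => (H592.phi2_st4 _).symm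
  · rintro ⟨k, hk, ha⟩
    have hk' : H592.xi2 k ω = true := hk
    rw [H592.xi2_true_iff] at hk'
    obtain ⟨i, hi, hmk⟩ := hk'
    rw [← hmk] at ha
    unfold H592.mark H592.gg2 at ha
    rw [Finset.mem_image] at ha
    obtain ⟨j, hj, hs⟩ := ha
    refine ⟨H592.phiInv2 k.1, i, hi, j, Nat.lt_succ_iff.mp (Finset.mem_range.mp hj), ?_⟩
    have h1 : H592.phi2 a = H592.phi2 (H592.phiInv2 k.1 + ∑ k' ∈ Finset.range j,
        H592.st4 (ω.2.2 (H592.phiInv2 k.1, i, k'))) := by
      rw [H592.phi2_add, H592.phi2_phiInv2, H592.phi2_sum]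
      have h2 : ∑ k' ∈ Finset.range j, H592.phi2 (H592.st4 (ω.2.2 (H592.phiInv2 k.1, i, k')))
          = H592.phi2 a - k.1 := by
        rw [← hs]
        exact Finset.sum_congr rfl fun k' _ => H592.phi2_st4 _
      rw [h2]
      abel
    have h3 := congrArg H592.phiInv2 h1
    rw [H592.phiInv2_phi2, H592.phiInv2_phi2] at h3
    exact h3

theorem adj_nb (a b : ℤ × ℤ) (h : squareLattice.Adj a b) : H592.nb (H592.phi2 a) (H592.phi2 b) := by
  unfold H592.nb
  rw [Fin.sum_univ_two]
  exact h

theorem perc_of_percolates (S : Set (ℤ × ℤ)) (U : Set (H592.V 2))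
    (hU : ∀ a, a ∈ S → H592.phi2 a ∈ U) (h : Percolates S) : H592.perc U := by
  obtain ⟨C, hC⟩ := h
  induction C using SimpleGraph.ConnectedComponent.ind with
  | h v =>
    refine ⟨H592.phi2 v.1, ?_⟩
    have hinj : Function.Injective (fun z : S => H592.phi2 z.1) := by
      intro a b hab
      have := congrArg H592.phiInv2 hab
      simp only [H592.phiInv2_phi2] at this
      exact Subtype.ext this
    refine Set.Infinite.mono ?_ (hC.image hinj.injOn)
    rintro _ ⟨z, hz, rfl⟩
    have hr : (squareLattice.induce S).Reachable v z := by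
      rw [SimpleGraph.ConnectedComponent.mem_supp_iff, SimpleGraph.ConnectedComponent.eq] at hz
      exact hz.symm
    rw [SimpleGraph.reachable_iff_reflTransGen] at hr
    show H592.conn U (H592.phi2 v.1) (H592.phi2 z.1)
    clear hz
    induction hr with
    | refl => exact Relation.ReflTransGen.refl
    | tail _ h2 ih =>
      rename_i y z _
      refine Relation.ReflTransGen.tail ih ⟨hU _ y.2, hU _ z.2, ?_⟩
      exact adj_nb _ _ h2

/-- bounded mean numbers of bad worms give a positive critical intensity -/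
theorem vc_pos (m : PMF ℕ) (H : ℝ)
    (HB : ∀ (c : H592.V 2) (r : ℕ), 1 ≤ r →
      H592.BS (H592.sh fun l => (m l).toReal) c r ≤ ENNReal.ofReal H) : 0 < vc m := by
  obtain ⟨v, hv, hmain⟩ := H592.upper_main (d := 2) (H592.sh fun l => (m l).toReal) H HB
    (H592.nu_sum_le2 m)
  have key : ∀ w : ℝ≥0, (w : ℝ) ≤ v → wormLaw w m {ω | Percolates (wormSet ω)} = 0 := by
    intro w hw
    have hsub : {ω | Percolates (wormSet ω)} ⊆ {ω | H592.perc (H592.occ (H592.Qs H592.xi2 ω))} := by
      intro ω hω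
      exact perc_of_percolates _ _ (fun a ha => (mem_wormSet ω a).mp ha) hω
    refine measure_mono_null hsub ?_
    refine hmain _ (H592.P2 w m) H592.xi2 H592.xi2_measurable (H592.xi2_indep _ m) (fun k => ?_)
    rw [H592.xi2_prob _ m k]
    have hnu : H592.nu (H592.sh fun l => (m l).toReal) k.2 ≠ ⊤ :=
      ne_top_of_le_ne_top (by simp) (H592.nu_le_one _ (H592.nu_sum_le2 m) k.2)
    set q := H592.nu (H592.sh fun l => (m l).toReal) k.2
    have hq : 0 ≤ q.toReal := ENNReal.toReal_nonneg
    calc ENNReal.ofReal (1 - Real.exp (-(w * q.toReal)))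
        ≤ ENNReal.ofReal (v * q.toReal) := by
          refine ENNReal.ofReal_le_ofReal ?_
          have := Real.add_one_le_exp (-(w * q.toReal))
          nlinarith
      _ = ENNReal.ofReal v * q := by
          rw [ENNReal.ofReal_mul hv.le, ENNReal.ofReal_toReal hnu]
  refine lt_of_lt_of_le (ENNReal.ofReal_pos.mpr hv) (le_iInf ?_)
  rintro ⟨w, hw0, hw⟩
  by_contra hlt
  push Not at hlt
  have hwv : (w : ℝ) ≤ v := by
    have h1 : (w : ℝ≥0∞) ≤ ENNReal.ofReal v := hlt.le
    have h2 := ENNReal.toReal_mono ENNReal.ofReal_ne_top h1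
    rwa [ENNReal.toReal_ofReal hv.le, ENNReal.coe_toReal] at h2
  rw [key w hwv] at hw
  exact lt_irrefl _ hw

/-- the weights of the counterexample -/
noncomputable def wt (n : ℕ) : ℝ := 1 / ((n : ℝ) ^ 2 * (1 + Real.log n))

theorem wt_nonneg (n : ℕ) : 0 ≤ wt n := by
  unfold wt
  have : 0 ≤ Real.log n := Real.log_natCast_nonneg n
  positivity

theorem wt_summable : Summable wt := by
  refine Summable.of_nonneg_of_le wt_nonneg (fun n => ?_)
    (Real.summable_one_div_nat_pow.mpr (by norm_num : 1 < 2))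
  unfold wt
  rcases Nat.eq_zero_or_pos n with h0 | h0
  · subst h0; simp
  · have hn : (0 : ℝ) < n := by exact_mod_cast h0
    have hl : 0 ≤ Real.log n := Real.log_natCast_nonneg n
    refine one_div_le_one_div_of_le (by positivity) ?_
    have : (0 : ℝ) < (n : ℝ) ^ 2 := by positivity
    nlinarith

theorem mean_not_summable : ¬ Summable (fun n : ℕ => 1 / ((n : ℝ) * (1 + Real.log n))) := by
  rw [← summable_condensed_iff_of_nonneg]
  · intro h
    have h2 : Summable (fun k : ℕ => 1 / (((k + 1 : ℕ) : ℝ))) := by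
      refine Summable.of_nonneg_of_le (fun k => by positivity) (fun k => ?_) h
      push_cast
      rw [Real.log_pow]
      have h3 : (2 : ℝ) ^ k * (1 / ((2 : ℝ) ^ k * (1 + (k : ℝ) * Real.log 2)))
          = 1 / (1 + (k : ℝ) * Real.log 2) := by
        have h4 : 0 ≤ Real.log 2 := Real.log_nonneg (by norm_num)
        field_simp
      rw [h3]
      have h5 : Real.log 2 ≤ 1 := by
        have := Real.log_two_lt_d9
        linarith
      have h6 : 0 ≤ Real.log 2 := Real.log_nonneg (by norm_num)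
      have hk : (0 : ℝ) ≤ k := Nat.cast_nonneg k
      refine one_div_le_one_div_of_le (by positivity) ?_
      nlinarith
    rw [summable_nat_add_iff (f := fun k : ℕ => 1 / (k : ℝ)) 1] at h2
    exact Real.not_summable_one_div_natCast h2
  · intro n
    have : 0 ≤ Real.log n := Real.log_natCast_nonneg n
    positivity
  · intro a b ha hab
    have ha0 : (0 : ℝ) < a := by exact_mod_cast ha
    have hab' : (a : ℝ) ≤ b := by exact_mod_cast hab
    have hla : 0 ≤ Real.log a := Real.log_natCast_nonneg a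
    have hl : Real.log a ≤ Real.log b := Real.log_le_log ha0 hab'
    refine one_div_le_one_div_of_le (by positivity) ?_
    gcongr

/-- For the length law `m(ℓ) = c / (ℓ² (1 + log ℓ))` on the positive integers the mean length is
infinite, and yet the critical intensity of planar worm percolation is strictly positive. Hence
the proposed equivalence between positivity of the critical intensity and finiteness of the mean
length is false. -/
theorem result :
    ∃ m : PMF ℕ, m 0 = 0 ∧
      (∃ c : ℝ, 0 < c ∧ ∀ ℓ : ℕ, 1 ≤ ℓ →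
        (m ℓ).toReal = c / ((ℓ : ℝ) ^ 2 * (1 + Real.log ℓ))) ∧
      ∑' ℓ : ℕ, (ℓ : ℝ≥0∞) * m ℓ = ⊤ ∧
      0 < vc m := by
  have hZ0 : ∑' n, ENNReal.ofReal (wt n) ≠ 0 := by
    intro h
    rw [ENNReal.tsum_eq_zero] at h
    have := h 1
    simp [wt] at this
  have hZ1 : ∑' n, ENNReal.ofReal (wt n) ≠ ⊤ := wt_summable.tsum_ofReal_ne_top
  set Z := ∑' n, ENNReal.ofReal (wt n) with hZ
  have hc0 : 0 < (Z⁻¹).toReal := ENNReal.toReal_pos (ENNReal.inv_ne_zero.mpr hZ1)
    (ENNReal.inv_ne_top.mpr hZ0)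
  have hval : ∀ n, (PMF.normalize (fun n => ENNReal.ofReal (wt n)) hZ0 hZ1) n
      = ENNReal.ofReal (wt n) * Z⁻¹ := fun n => PMF.normalize_apply _ _ _
  have hvalr : ∀ n, ((PMF.normalize (fun n => ENNReal.ofReal (wt n)) hZ0 hZ1) n).toReal
      = (Z⁻¹).toReal / ((n : ℝ) ^ 2 * (1 + Real.log n)) := by
    intro n
    rw [hval, ENNReal.toReal_mul, ENNReal.toReal_ofReal (wt_nonneg n)]
    unfold wt
    ring
  refine ⟨PMF.normalize (fun n => ENNReal.ofReal (wt n)) hZ0 hZ1, ?_, ⟨(Z⁻¹).toReal, hc0,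
    fun n _ => hvalr n⟩, ?_, ?_⟩
  · rw [hval]
    simp [wt]
  · simp_rw [hval]
    have h1 : ∀ n : ℕ, (n : ℝ≥0∞) * (ENNReal.ofReal (wt n) * Z⁻¹)
        = ENNReal.ofReal (1 / ((n : ℝ) * (1 + Real.log n))) * Z⁻¹ := by
      intro n
      rw [← mul_assoc, ← ENNReal.ofReal_natCast, ← ENNReal.ofReal_mul (Nat.cast_nonneg n)]
      congr 2
      unfold wt
      rcases Nat.eq_zero_or_pos n with h0 | h0
      · subst h0; simp
      · have hn : (0 : ℝ) < n := by exact_mod_cast h0
        have hl : 0 ≤ Real.log n := Real.log_natCast_nonneg n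
        field_simp
    simp_rw [h1]
    rw [ENNReal.tsum_mul_right]
    have h2 : ∑' n : ℕ, ENNReal.ofReal (1 / ((n : ℝ) * (1 + Real.log n))) = ⊤ := by
      by_contra hne
      refine mean_not_summable ?_
      have h3 := ENNReal.summable_toReal hne
      refine h3.congr fun n => ?_
      rw [ENNReal.toReal_ofReal]
      have hl : 0 ≤ Real.log n := Real.log_natCast_nonneg n
      positivity
    rw [h2, ENNReal.top_mul (ENNReal.inv_ne_zero.mpr hZ1)]
  · obtain ⟨H, HB⟩ := H592.BS2_log
      (fun n => ((PMF.normalize (fun n => ENNReal.ofReal (wt n)) hZ0 hZ1) n).toReal)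
      (fun n => ENNReal.toReal_nonneg) (Z⁻¹).toReal hc0.le (fun n _ => (hvalr n).le)
    exact vc_pos _ H HB

end Pool.Agent.Results.MP_e1341d_pr.LogLawDisproof
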